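import Mathlib

namespace Pool.Agent.Results.MP_405423_al.Quot

open Finset

/-- the number of solutions of `w(x) = g` -/
noncomputable def N {G : Type} [Group G] {r : ℕ} (w : FreeGroup (Fin r)) (g : G) : ℕ :=
  Nat.card {x : Fin r → G // FreeGroup.lift x w = g}

/-- every word count is constant on generators of the same cyclic subgroup -/
def SemiRat (G : Type) [Group G] : Prop :=
  ∀ (r : ℕ) (w : FreeGroup (Fin r)) (g h : G), Subgroup.zpowers g = Subgroup.zpowers h → N w g = N w h

theorem result (G : Type) [Group G] [Finite G] (K : Subgroup G) [K.Normal] (h : SemiRat G) :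
    SemiRat (G ⧸ K) := by
  classical
  have := Fintype.ofFinite G
  intro r w q q' e
  obtain ⟨k, hk, rfl⟩ : ∃ k, (Nat.card G).Coprime k ∧ q ^ k = q' := by
    obtain ⟨a, rfl⟩ := (mem_powers_iff_mem_zpowers (x := q)).2 (e ▸ Subgroup.mem_zpowers q')
    have c : a.Coprime (orderOf q) := mem_zpowers_pow_iff.1 (e ▸ Subgroup.mem_zpowers q)
    have d : orderOf q ∣ Nat.card G := (orderOf_dvd_natCard q).trans K.card_quotient_dvd_card
    have : NeZero (Nat.card G) := ⟨Nat.card_pos.ne'⟩
    obtain ⟨u, hu⟩ := ZMod.unitsMap_surjective d (ZMod.unitOfCoprime a c)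
    refine ⟨(u : ZMod (Nat.card G)).val, (ZMod.val_coe_unit_coprime u).symm, pow_eq_pow_iff_modEq.2 ?_⟩
    rw [← ZMod.natCast_eq_natCast_iff]
    simpa [ZMod.unitsMap_def] using congrArg Units.val hu
  let φ : (Fin r → G) →* Fin r → G ⧸ K := MonoidHom.compLeft (QuotientGroup.mk' K) _
  have hs : Function.Surjective φ := (QuotientGroup.mk'_surjective K).comp_left
  have h1 : ∀ q : G ⧸ K, ∑ x ∈ univ.filter (fun x : G => (x : G ⧸ K) = q), N w x = N w q * #{y | φ y = 1} := fun q => by
    have a := card_eq_sum_card_fiberwise (s := univ.filter fun y : Fin r → G =>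
      (FreeGroup.lift y w : G ⧸ K) = q) (t := univ.filter fun x : G => (x : G ⧸ K) = q)
      (f := fun y => FreeGroup.lift y w) fun y hy => by simpa using hy
    have l : ∀ y, FreeGroup.lift (φ y) w = (FreeGroup.lift y w : G ⧸ K) := fun y =>
      (FreeGroup.lift_unique ((QuotientGroup.mk' K).comp (FreeGroup.lift y)) (by simp [φ])).symm
    have b := card_eq_sum_card_fiberwise (s := univ.filter fun y : Fin r → G =>
      (FreeGroup.lift y w : G ⧸ K) = q) (t := univ.filter fun z => FreeGroup.lift z w = q)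
      (f := φ) fun y hy => by simpa [l] using hy
    simp only [N, Nat.card_eq_fintype_card, Fintype.card_subtype]
    rw [← smul_eq_mul, ← sum_const]
    refine (sum_congr rfl fun x hx => ?_).trans (a.symm.trans (b.trans (sum_congr rfl fun z hz => ?_)))
    · congr 1; ext y; simp at hx ⊢; rintro rfl; exact hx
    · rw [← MonoidHom.card_fiber_eq_of_mem_range φ (hs z) (hs 1)]
      congr 1; ext y; simp at hz ⊢; rintro rfl; rwa [← l]
  refine Nat.eq_of_mul_eq_mul_right (card_pos.2 ⟨1, by simp⟩ : 0 < #{y | φ y = 1}) ?_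
  rw [← h1, ← h1]
  have i := (powCoprime (K.card_quotient_dvd_card |> hk.coprime_dvd_left)).injective
  refine sum_equiv (powCoprime hk) (fun x => by simpa using (i.eq_iff (a := (x : G ⧸ K)) (b := q)).symm) fun x _ =>
    h r w _ _ (le_antisymm (by
      simpa using mem_zpowers_pow_iff.2 (hk.coprime_dvd_left (orderOf_dvd_natCard x)).symm) (by simp))

end Pool.Agent.Results.MP_405423_al.Quot
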